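import Pool.Agent.R290.CD.Final

/-!
MP_06f7ba_an, Q1: negative answer.
-/

namespace Pool.Agent.Results.MP_06f7ba_an.NoIndicator

/-- The statement of Q1 is false: there are a discrete abelian group, an invariant mean `m`, a
Choquet decomposition `σ` of `m` and a measurable set `E` of extreme invariant means such that no
translation-invariant indicator element `w ∈ L²(m)` satisfies `m(fw) = ∫_E ν(f) dσ(ν)` for all
bounded `f`. -/
theorem result : ¬ R290.CD.Q1 := R290.CD.not_Q1

end Pool.Agent.Results.MP_06f7ba_an.NoIndicator
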